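import Mathlib

set_option autoImplicit false

/-! Left invariant `0`-hyperbolic pseudometrics on a group (orbit maps of isometric actions on trees). -/

namespace Pool.Agent.H33.TA

variable {G : Type} [Group G]

/-- a left invariant pseudometric with the four point condition -/
structure Hyp0 (D : G → G → ℝ) : Prop where
  self : ∀ x, D x x = 0
  symm : ∀ x y, D x y = D y x
  inv : ∀ g x y, D (g * x) (g * y) = D x y
  four : ∀ x y z w, D x y + D z w ≤ max (D x z + D y w) (D x w + D y z)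

/-- the Gromov product at `1` -/
noncomputable def gp (D : G → G → ℝ) (y z : G) : ℝ := (D 1 y + D 1 z - D y z) / 2

variable {D : G → G → ℝ} (h : Hyp0 D)

include h

theorem Hyp0.tri (x y z : G) : D x y ≤ D x z + D z y := by
  have h1 := h.four x y z z
  rw [h.self, h.symm y z, max_self] at h1
  linarith

theorem Hyp0.nonneg (x y : G) : 0 ≤ D x y := by
  have h1 := h.tri x x y
  rw [h.self, h.symm y x] at h1
  linarith

theorem Hyp0.len_inv (g : G) : D 1 g⁻¹ = D 1 g := by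
  have h1 := h.inv g 1 g⁻¹
  rw [mul_one, mul_inv_cancel] at h1
  rw [← h1, h.symm]

theorem Hyp0.eq_len (x y : G) : D x y = D 1 (x⁻¹ * y) := by
  have h1 := h.inv x⁻¹ x y
  rw [inv_mul_cancel] at h1
  exact h1.symm

theorem Hyp0.gp_symm (y z : G) : gp D y z = gp D z y := by
  unfold gp
  rw [h.symm y z]; ring

theorem Hyp0.gp_self (y : G) : gp D y y = D 1 y := by
  unfold gp
  rw [h.self]; ring

theorem Hyp0.gp_nonneg (y z : G) : 0 ≤ gp D y z := by
  unfold gp
  have h1 := h.tri y z 1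
  rw [h.symm y 1] at h1
  linarith

theorem Hyp0.gp_le (y z : G) : gp D y z ≤ D 1 y := by
  unfold gp
  have h1 := h.tri 1 z y
  linarith

theorem Hyp0.gp_min (a b c : G) : min (gp D a b) (gp D b c) ≤ gp D a c := by
  unfold gp
  have h1 := h.four 1 b a c
  rcases le_max_iff.1 h1 with h2 | h2
  · refine (min_le_right _ _).trans ?_
    linarith
  · refine (min_le_left _ _).trans ?_
    rw [h.symm b a] at h2
    linarith

/-- the isosceles rule -/
theorem Hyp0.gp_iso {a b c : G} (hab : gp D b c < gp D a b) : gp D a c = gp D b c := by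
  apply le_antisymm
  · have h1 := h.gp_min b a c
    rw [h.gp_symm b a] at h1
    rcases min_le_iff.1 h1 with h2 | h2
    · linarith
    · exact h2
  · have h1 := h.gp_min a b c
    rw [min_eq_right hab.le] at h1
    exact h1

theorem Hyp0.gp_left (g y z : G) : gp D y z - D 1 g ≤ gp D (g * y) (g * z) := by
  unfold gp
  rw [h.inv]
  have h1 := h.tri g (g * y) 1
  have h2 := h.tri g (g * z) 1
  have h3 : D g (g * y) = D 1 y := by
    have := h.inv g 1 y
    rwa [mul_one] at this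
  have h4 : D g (g * z) = D 1 z := by
    have := h.inv g 1 z
    rwa [mul_one] at this
  rw [h.symm g 1] at h1 h2
  linarith

theorem Hyp0.gp_right_mul (y z g : G) : gp D y (z * g) ≤ gp D y z + D 1 g := by
  unfold gp
  have h1 : D z (z * g) = D 1 g := by
    have := h.inv z 1 g
    rwa [mul_one] at this
  have h2 := h.tri 1 (z * g) z
  have h3 := h.tri y z (z * g)
  rw [h.symm (z * g) z] at h3
  linarith

/-- `|g ^ 2| = 2 |g| - 2 (g | g⁻¹)` -/
theorem Hyp0.len_sq (g : G) : D 1 (g * g) = 2 * D 1 g - 2 * gp D g g⁻¹ := by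
  unfold gp
  rw [h.len_inv]
  have h1 := h.inv g g⁻¹ g
  rw [mul_inv_cancel] at h1
  rw [h.symm g g⁻¹, ← h1]
  ring

/-- the ultrametric lemma -/
theorem Hyp0.ultra {x s : G} (hx : D 1 (x * x) ≤ D 1 x) (hs : D 1 (s * s) ≤ D 1 s)
    (hu : D 1 (x * s * (x * s)) ≤ D 1 (x * s)) : D 1 (x * s) ≤ max (D 1 x) (D 1 s) := by
  by_contra hcon
  rw [not_le] at hcon
  obtain ⟨h1, h2⟩ := max_lt_iff.1 hcon
  have hc : gp D x⁻¹ s = (D 1 x + D 1 s - D 1 (x * s)) / 2 := by
    unfold gp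
    rw [h.len_inv]
    have h3 := h.inv x x⁻¹ s
    rw [mul_inv_cancel] at h3
    rw [← h3]
  have hxx := h.len_sq x
  have hss := h.len_sq s
  have huu := h.len_sq (x * s)
  -- `(x | s) = c`
  have e1 : gp D x s = gp D x⁻¹ s := h.gp_iso (by linarith)
  -- `(s⁻¹ | x) = c`
  have e2 : gp D s⁻¹ x = gp D s x := h.gp_iso (by rw [h.gp_symm s x, h.gp_symm s⁻¹ s, e1]; linarith)
  have e3 : gp D s⁻¹ x = gp D x⁻¹ s := by rw [e2, h.gp_symm, e1]
  have f1 : gp D (x * s) x = D 1 x - gp D x⁻¹ s := by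
    rw [hc]
    unfold gp
    have h4 : D (x * s) x = D 1 s := by
      have := h.inv x s 1
      rw [mul_one] at this
      rw [this, h.symm]
    rw [h4]; ring
  have f2 : gp D (x * s)⁻¹ s⁻¹ = D 1 s - gp D x⁻¹ s := by
    rw [hc]
    unfold gp
    have h4 : D (x * s)⁻¹ s⁻¹ = D 1 x := by
      have := h.inv s⁻¹ x⁻¹ 1
      rw [mul_one] at this
      rw [mul_inv_rev, this, h.symm, h.len_inv]
    rw [h4, h.len_inv, h.len_inv]; ring
  -- `(u | s⁻¹) = c`
  have g1 : gp D (x * s) s⁻¹ = gp D x s⁻¹ := h.gp_iso (by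
    rw [f1, h.gp_symm x s⁻¹, e3]; linarith)
  have g2 : gp D (x * s) s⁻¹ = gp D x⁻¹ s := by rw [g1, h.gp_symm, e3]
  have g3 : gp D (x * s)⁻¹ (x * s) = gp D s⁻¹ (x * s) := h.gp_iso (by
    rw [f2, h.gp_symm s⁻¹, g2]; linarith)
  have g4 : gp D (x * s) (x * s)⁻¹ = gp D x⁻¹ s := by rw [h.gp_symm, g3, h.gp_symm, g2]
  rw [g4] at huu
  linarith

/-- a finitely generated subgroup without hyperbolic elements is bounded -/
theorem Hyp0.bounded_of_fg (K : Subgroup G) (hK : K.FG)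
    (hn : ∀ g ∈ K, D 1 (g * g) ≤ D 1 g) : ∃ M, ∀ g ∈ K, D 1 g ≤ M := by
  obtain ⟨S, hS⟩ := hK
  have hM : ∃ M, 0 ≤ M ∧ ∀ s ∈ S, D 1 s ≤ M := by
    refine ⟨∑ s ∈ S, D 1 s, Finset.sum_nonneg (fun s _ => h.nonneg 1 s), ?_⟩
    intro s hs
    exact Finset.single_le_sum (f := fun s => D 1 s) (fun s _ => h.nonneg 1 s) hs
  obtain ⟨M, hM0, hM⟩ := hM
  refine ⟨M, ?_⟩
  intro g hg
  have key : ∀ g, g ∈ Subgroup.closure (S : Set G) → g ∈ K ∧ D 1 g ≤ M := by
    intro g hg
    induction hg using Subgroup.closure_induction with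
    | mem x hx => exact ⟨by rw [← hS]; exact Subgroup.subset_closure hx, hM x hx⟩
    | one => exact ⟨K.one_mem, by rw [h.self]; exact hM0⟩
    | mul x y _ _ ihx ihy =>
      refine ⟨K.mul_mem ihx.1 ihy.1, ?_⟩
      refine (h.ultra (hn x ihx.1) (hn y ihy.1) (hn _ (K.mul_mem ihx.1 ihy.1))).trans ?_
      exact max_le ihx.2 ihy.2
    | inv x _ ih => exact ⟨K.inv_mem ih.1, by rw [h.len_inv]; exact ih.2⟩
  rw [← hS] at hg
  exact (key g hg).2

end Pool.Agent.H33.TA
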