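import Pool.Agent.H33.TA.Basic

set_option autoImplicit false

/-! Hyperbolic elements, their two ends, and the ping-pong argument. -/

namespace Pool.Agent.H33.TA

variable {G : Type} [Group G]

/-- two sequences converge to the same end -/
def EE (D : G → G → ℝ) (u v : ℕ → G) : Prop :=
  ∀ K : ℝ, ∃ N : ℕ, ∀ n, N ≤ n → ∀ m, N ≤ m → K ≤ gp D (u n) (v m)

/-- powers of `t` or of `t⁻¹` -/
def pw (t : G) (b : Bool) (n : ℕ) : G := (if b then t else t⁻¹) ^ n

variable {D : G → G → ℝ} (h : Hyp0 D)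

include h

theorem Hyp0.ee_symm {u v : ℕ → G} (e : EE D u v) : EE D v u := by
  intro K
  obtain ⟨N, hN⟩ := e K
  exact ⟨N, fun n hn m hm => by rw [h.gp_symm]; exact hN m hm n hn⟩

theorem Hyp0.ee_trans {u v w : ℕ → G} (e : EE D u v) (f : EE D v w) : EE D u w := by
  intro K
  obtain ⟨N, hN⟩ := e K
  obtain ⟨M, hM⟩ := f K
  refine ⟨max N M, fun n hn m hm => ?_⟩
  refine le_trans ?_ (h.gp_min (u n) (v (max N M)) (w m))
  exact le_min (hN n ((le_max_left _ _).trans hn) _ (le_max_left _ _))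
    (hM _ (le_max_right _ _) m ((le_max_right _ _).trans hm))

theorem Hyp0.ee_mul {u v : ℕ → G} (g : G) (e : EE D u v) :
    EE D (fun n => g * u n) (fun n => g * v n) := by
  intro K
  obtain ⟨N, hN⟩ := e (K + D 1 g)
  refine ⟨N, fun n hn m hm => ?_⟩
  have h1 := h.gp_left g (u n) (v m)
  have h2 := hN n hn m hm
  linarith

theorem Hyp0.not_ee {u v : ℕ → G} (hu : EE D u u) (hv : EE D v v) (hn : ¬ EE D u v) :
    ∃ K : ℝ, ∃ N : ℕ, ∀ n, N ≤ n → ∀ m, N ≤ m → gp D (u n) (v m) < K := by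
  unfold EE at hn
  push Not at hn
  obtain ⟨K, hK⟩ := hn
  obtain ⟨N1, hN1⟩ := hu K
  obtain ⟨N2, hN2⟩ := hv K
  set N := max N1 N2 with hNdef
  have l1 : N1 ≤ N := le_max_left _ _
  have l2 : N2 ≤ N := le_max_right _ _
  obtain ⟨n, hn, m, hm, hlt⟩ := hK N
  refine ⟨K, N, fun n' hn' m' hm' => ?_⟩
  by_contra hcon
  rw [not_lt] at hcon
  have h1 := h.gp_min (u n) (u n') (v m)
  have h2 := h.gp_min (u n') (v m') (v m)
  have h3 := hN1 n (l1.trans hn) n' (l1.trans hn')
  have h4 := hN2 m' (l2.trans hm') m (l2.trans hm)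
  have h5 : K ≤ gp D (u n') (v m) := (le_min hcon h4).trans h2
  have h6 : K ≤ gp D (u n) (v m) := (le_min h3 h5).trans h1
  linarith

theorem Hyp0.pow_len {t : G} (ht : D 1 t < D 1 (t * t)) (n : ℕ) :
    D 1 (t ^ (n + 1)) = (n + 1) * (D 1 t - 2 * gp D t t⁻¹) + 2 * gp D t t⁻¹ ∧
      gp D (t ^ (n + 1)) t⁻¹ = gp D t t⁻¹ := by
  have hsq := h.len_sq t
  induction n with
  | zero => exact ⟨by simp, by simp⟩
  | succ n ih =>
    obtain ⟨ih1, ih2⟩ := ih
    have h1 : D 1 (t ^ (n + 1 + 1)) = D t⁻¹ (t ^ (n + 1)) := by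
      have := h.inv t t⁻¹ (t ^ (n + 1))
      rw [mul_inv_cancel, ← pow_succ'] at this
      exact this
    have h2 : gp D (t ^ (n + 1)) t⁻¹ = (D 1 (t ^ (n + 1)) + D 1 t - D 1 (t ^ (n + 1 + 1))) / 2 := by
      unfold gp
      rw [h1, h.len_inv, h.symm t⁻¹]
    rw [ih2] at h2
    have h3 : D 1 (t ^ (n + 1 + 1)) =
        ((n + 1 : ℕ) + 1) * (D 1 t - 2 * gp D t t⁻¹) + 2 * gp D t t⁻¹ := by
      push_cast
      linarith
    refine ⟨h3, ?_⟩
    have h4 : D (t ^ (n + 1 + 1)) t = D 1 (t ^ (n + 1)) := by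
      have := h.inv t (t ^ (n + 1)) 1
      rw [← pow_succ', mul_one] at this
      rw [this, h.symm]
    apply h.gp_iso
    have h5 : gp D (t ^ (n + 1 + 1)) t =
        (D 1 (t ^ (n + 1 + 1)) + D 1 t - D 1 (t ^ (n + 1))) / 2 := by
      unfold gp
      rw [h4]
    rw [h5, h3, ih1]
    push_cast
    linarith

omit h in
/-- translation length -/
noncomputable def tl (D : G → G → ℝ) (t : G) : ℝ := D 1 t - 2 * gp D t t⁻¹

theorem Hyp0.tl_pos {t : G} (ht : D 1 t < D 1 (t * t)) : 0 < tl D t := by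
  have := h.len_sq t
  unfold tl
  linarith

theorem Hyp0.pow_len' {t : G} (ht : D 1 t < D 1 (t * t)) {n : ℕ} (hn : 1 ≤ n) :
    D 1 (t ^ n) = n * tl D t + 2 * gp D t t⁻¹ := by
  obtain ⟨m, rfl⟩ : ∃ m, n = m + 1 := ⟨n - 1, by omega⟩
  rw [(h.pow_len ht m).1]
  unfold tl
  push_cast
  ring

theorem Hyp0.pow_len_le {t : G} (ht : D 1 t < D 1 (t * t)) (n : ℕ) :
    D 1 (t ^ n) ≤ n * tl D t + 2 * gp D t t⁻¹ := by
  rcases Nat.eq_zero_or_pos n with rfl | hn
  · rw [pow_zero, h.self]
    have := h.gp_nonneg t t⁻¹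
    push_cast
    linarith
  · exact (h.pow_len' ht hn).le

theorem Hyp0.hyp_inv {t : G} (ht : D 1 t < D 1 (t * t)) : D 1 t⁻¹ < D 1 (t⁻¹ * t⁻¹) := by
  rw [← mul_inv_rev, h.len_inv, h.len_inv]
  exact ht

theorem Hyp0.tl_inv (t : G) : tl D t⁻¹ = tl D t := by
  unfold tl
  rw [h.len_inv, inv_inv, h.gp_symm]

theorem Hyp0.gp_pow {t : G} (ht : D 1 t < D 1 (t * t)) {n m : ℕ} (hn : 1 ≤ n) (hnm : n ≤ m) :
    n * tl D t ≤ gp D (t ^ n) (t ^ m) := by
  have h1 := h.pow_len' ht hn
  have h2 := h.pow_len' ht (hn.trans hnm)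
  have h3 : D (t ^ n) (t ^ m) = D 1 (t ^ (m - n)) := by
    have := h.inv (t ^ n) 1 (t ^ (m - n))
    rwa [mul_one, ← pow_add, Nat.add_sub_cancel' hnm] at this
  have h4 := h.pow_len_le ht (m - n)
  rw [Nat.cast_sub hnm] at h4
  have h5 := h.gp_nonneg t t⁻¹
  unfold gp at h1 h2 h4 h5 ⊢
  rw [h3, h1, h2]
  have h6 : ((m : ℝ) - n) * tl D t = m * tl D t - n * tl D t := by ring
  rw [h6] at h4
  linarith

theorem Hyp0.ee_pow {t : G} (ht : D 1 t < D 1 (t * t)) :
    EE D (fun n => t ^ n) (fun n => t ^ n) := by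
  intro K
  have hp := h.tl_pos ht
  obtain ⟨N, hN⟩ := exists_nat_gt (K / tl D t)
  rw [div_lt_iff₀ hp] at hN
  refine ⟨max N 1, fun n hn m hm => ?_⟩
  have hn1 : 1 ≤ n := (le_max_right _ _).trans hn
  have hm1 : 1 ≤ m := (le_max_right _ _).trans hm
  have hnN : N ≤ n := (le_max_left _ _).trans hn
  have hmN : N ≤ m := (le_max_left _ _).trans hm
  rcases le_total n m with hnm | hnm
  · have h1 := h.gp_pow ht hn1 hnm
    have h2 : (N : ℝ) * tl D t ≤ n * tl D t :=
      mul_le_mul_of_nonneg_right (by exact_mod_cast hnN) hp.le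
    linarith
  · have h1 := h.gp_pow ht hm1 hnm
    have h2 : (N : ℝ) * tl D t ≤ m * tl D t :=
      mul_le_mul_of_nonneg_right (by exact_mod_cast hmN) hp.le
    rw [h.gp_symm]
    linarith

theorem Hyp0.ee_pw {t : G} (ht : D 1 t < D 1 (t * t)) (b : Bool) : EE D (pw t b) (pw t b) := by
  cases b with
  | true => exact h.ee_pow ht
  | false => exact h.ee_pow (h.hyp_inv ht)

theorem Hyp0.pw_len {t : G} (ht : D 1 t < D 1 (t * t)) (b : Bool) {n : ℕ} (hn : 1 ≤ n) :
    D 1 (pw t b n) = n * tl D t + 2 * gp D t t⁻¹ := by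
  cases b with
  | true => exact h.pow_len' ht hn
  | false =>
    have := h.pow_len' (h.hyp_inv ht) hn
    rw [h.tl_inv, inv_inv, h.gp_symm] at this
    exact this

omit h in
theorem pw_inv (t : G) (b : Bool) (n : ℕ) : (pw t b n)⁻¹ = pw t (!b) n := by
  cases b <;> simp [pw]

theorem Hyp0.not_ee_pw {t : G} (ht : D 1 t < D 1 (t * t)) :
    ¬ EE D (pw t true) (pw t false) := by
  intro e
  obtain ⟨N, hN⟩ := e (gp D t t⁻¹ + 1)
  set n := max N 1 with hn
  have hn1 : 1 ≤ n := le_max_right _ _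
  have h1 := hN n (le_max_left _ _) n (le_max_left _ _)
  have h2 := h.pw_len ht true hn1
  have h3 := h.pw_len ht false hn1
  have h4 : D (pw t true n) (pw t false n) = D 1 (t ^ (n + n)) := by
    have := h.inv (t ^ n) (pw t false n) 1
    rw [mul_one] at this
    have h5 : t ^ n * pw t false n = 1 := by simp [pw]
    rw [h5] at this
    have h6 := h.inv (t ^ n) 1 (t ^ n)
    rw [mul_one, ← pow_add] at h6
    have h7 := h.pw_len ht true hn1
    have h8 : pw t true n = t ^ n := by simp [pw]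
    -- `D (t^n) (t^-n) = D (t^(2n)) 1`
    have h9 := h.inv (t ^ n) (pw t true n) (pw t false n)
    rw [h5, h8, ← pow_add] at h9
    rw [h8, ← h9, h.symm]
  have h5 := h.pow_len' ht (show 1 ≤ n + n by omega)
  have h6 : gp D (pw t true n) (pw t false n) = gp D t t⁻¹ := by
    unfold gp at h2 h3 h5 ⊢
    rw [h4, h5, h2, h3]
    push_cast
    ring
  linarith

/-- `t` fixes no end except its own two ends -/
theorem Hyp0.ee_fix {t : G} (ht : D 1 t < D 1 (t * t)) {w : ℕ → G} (hw : EE D w w)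
    (hf : EE D (fun n => t * w n) w) : EE D w (pw t false) ∨ EE D w (pw t true) := by
  by_cases hm : EE D w (pw t false)
  · exact Or.inl hm
  right
  obtain ⟨K, N, hKN⟩ := h.not_ee hw (h.ee_pw ht false) hm
  have hk : ∀ k : ℕ, EE D (fun n => t ^ k * w n) w := by
    intro k
    induction k with
    | zero => simpa using hw
    | succ k ih =>
      have h1 := h.ee_mul t ih
      have h2 := h.ee_trans h1 hf
      intro M
      obtain ⟨N, hN⟩ := h2 M
      refine ⟨N, fun n hn m hm => ?_⟩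
      have h3 : M ≤ gp D (t * (t ^ k * w n)) (w m) := hN n hn m hm
      rwa [← mul_assoc, ← pow_succ'] at h3
  have hp := h.tl_pos ht
  intro K'
  obtain ⟨k0, hk0⟩ := exists_nat_gt ((K' + K) / tl D t)
  rw [div_lt_iff₀ hp] at hk0
  obtain ⟨k1, hk1⟩ := exists_nat_gt (K' / tl D t)
  rw [div_lt_iff₀ hp] at hk1
  set k := max (max k0 k1) (max N 1) with hkdef
  have e0 : k0 ≤ k := (le_max_left _ _).trans (le_max_left _ _)
  have e1 : k1 ≤ k := (le_max_right _ _).trans (le_max_left _ _)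
  have e2 : N ≤ k := (le_max_left _ _).trans (le_max_right _ _)
  have e3 : 1 ≤ k := (le_max_right _ _).trans (le_max_right _ _)
  have m0 : (k0 : ℝ) * tl D t ≤ k * tl D t :=
    mul_le_mul_of_nonneg_right (by exact_mod_cast e0) hp.le
  have m1 : (k1 : ℝ) * tl D t ≤ k * tl D t :=
    mul_le_mul_of_nonneg_right (by exact_mod_cast e1) hp.le
  obtain ⟨N2, hN2⟩ := hk k K'
  refine ⟨max (max N N2) k, fun n hn m hm => ?_⟩
  have n0 : N ≤ n := ((le_max_left _ _).trans (le_max_left _ _)).trans hn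
  have n2 : N2 ≤ n := ((le_max_right _ _).trans (le_max_left _ _)).trans hn
  have mk : k ≤ m := (le_max_right _ _).trans hm
  -- `(w_n | t^k w_n) ≥ K'`
  have p1 : K' ≤ gp D (w n) (t ^ k * w n) := by
    rw [h.gp_symm]
    exact hN2 n n2 n n2
  -- `(t^k w_n | t^k) ≥ K'`
  have p2 : K' ≤ gp D (t ^ k * w n) (t ^ k) := by
    have q1 : D (t ^ k * w n) (t ^ k) = D 1 (w n) := by
      have := h.inv (t ^ k) (w n) 1
      rw [mul_one] at this
      rw [this, h.symm]
    have q2 : D 1 (t ^ k * w n) = D (pw t false k) (w n) := by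
      have := h.inv (t ^ k) (pw t false k) (w n)
      have q3 : t ^ k * pw t false k = 1 := by simp [pw]
      rw [q3] at this
      exact this
    have q3 := hKN n n0 k e2
    have q4 := h.pw_len ht true e3
    have q5 := h.pw_len ht false e3
    have q6 : pw t true k = t ^ k := by simp [pw]
    rw [q6] at q4
    have q7 := h.gp_nonneg t t⁻¹
    unfold gp at q3 ⊢
    rw [q1, q2]
    rw [h.symm (w n) (pw t false k)] at q3
    linarith
  -- `(t^k | t^m) ≥ K'`
  have p3 : K' ≤ gp D (t ^ k) (pw t true m) := by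
    have := h.gp_pow ht e3 mk
    have q6 : pw t true m = t ^ m := by simp [pw]
    rw [q6]
    linarith
  have r1 := h.gp_min (w n) (t ^ k * w n) (pw t true m)
  have r2 := h.gp_min (t ^ k * w n) (t ^ k) (pw t true m)
  exact (le_min p1 ((le_min p2 p3).trans r2)).trans r1

/-- the ping-pong argument -/
theorem Hyp0.disj {c d y : G} (h1 : gp D c d < D 1 c / 2) (h2 : gp D c d < D 1 d / 2)
    (hc : D y c ≤ D y 1) (hd : D y d ≤ D y 1) : False := by
  have h3 := h.gp_min c y d
  rw [h.symm y 1] at hc hd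
  have h4 : D 1 c / 2 ≤ gp D c y := by
    unfold gp
    rw [h.symm c y]
    linarith
  have h5 : D 1 d / 2 ≤ gp D y d := by
    unfold gp
    linarith
  rcases min_le_iff.1 h3 with h6 | h6
  · linarith
  · linarith

theorem Hyp0.pingpong {a b : G} (ha : gp D a a⁻¹ < D 1 a / 2) (hb : gp D b b⁻¹ < D 1 b / 2)
    (hab : ∀ i j : Bool, gp D (pw a i 1) (pw b j 1) < D 1 a / 2 ∧
      gp D (pw a i 1) (pw b j 1) < D 1 b / 2) :
    ∃ f : FreeGroup Bool →* G, Function.Injective f := by
  set c : Bool → G := fun i => if i then a else b with hc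
  have hl : ∀ (x : G) (j : Bool), D 1 (pw x j 1) = D 1 x := by
    intro x j
    cases j with
    | true => simp [pw]
    | false => simp [pw, h.len_inv]
  have hself : ∀ i : Bool, gp D (c i) (c i)⁻¹ < D 1 (c i) / 2 := by
    intro i
    cases i with
    | true => simpa [hc] using ha
    | false => simpa [hc] using hb
  have hcross : ∀ i j : Bool, ∀ y : G, D y (pw a i 1) ≤ D y 1 → D y (pw b j 1) ≤ D y 1 → False := by
    intro i j y h1 h2
    refine h.disj ?_ ?_ h1 h2
    · rw [hl]; exact (hab i j).1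
    · rw [hl]; exact (hab i j).2
  have hp1 : ∀ x : G, pw x true 1 = x := by intro x; simp [pw]
  have hp2 : ∀ x : G, pw x false 1 = x⁻¹ := by intro x; simp [pw]
  refine ⟨FreeGroup.lift c, FreeGroup.injective_lift_of_ping_pong c (α := G)
    (fun i => {y : G | D y (c i) ≤ D y 1}) (fun i => {y : G | D y (c i)⁻¹ ≤ D y 1})
    ?_ ?_ ?_ ?_ ?_ ?_⟩
  · intro i
    refine ⟨c i, ?_⟩
    change D (c i) (c i) ≤ D (c i) 1
    rw [h.self]
    exact h.nonneg _ _
  · intro i j hij
    rw [Function.onFun, Set.disjoint_left]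
    intro y (hy1 : D y (c i) ≤ D y 1) (hy2 : D y (c j) ≤ D y 1)
    cases i with
    | true =>
      cases j with
      | true => exact hij rfl
      | false =>
        refine hcross true true y ?_ ?_
        · rw [hp1]; simpa [hc] using hy1
        · rw [hp1]; simpa [hc] using hy2
    | false =>
      cases j with
      | false => exact hij rfl
      | true =>
        refine hcross true true y ?_ ?_
        · rw [hp1]; simpa [hc] using hy2
        · rw [hp1]; simpa [hc] using hy1
  · intro i j hij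
    rw [Function.onFun, Set.disjoint_left]
    intro y (hy1 : D y (c i)⁻¹ ≤ D y 1) (hy2 : D y (c j)⁻¹ ≤ D y 1)
    cases i with
    | true =>
      cases j with
      | true => exact hij rfl
      | false =>
        refine hcross false false y ?_ ?_
        · rw [hp2]; simpa [hc] using hy1
        · rw [hp2]; simpa [hc] using hy2
    | false =>
      cases j with
      | false => exact hij rfl
      | true =>
        refine hcross false false y ?_ ?_
        · rw [hp2]; simpa [hc] using hy2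
        · rw [hp2]; simpa [hc] using hy1
  · intro i j
    rw [Set.disjoint_left]
    intro y (hy1 : D y (c i) ≤ D y 1) (hy2 : D y (c j)⁻¹ ≤ D y 1)
    cases i with
    | true =>
      cases j with
      | true =>
        refine h.disj (hself true) ?_ hy1 hy2
        rw [h.len_inv]; exact hself true
      | false =>
        refine hcross true false y ?_ ?_
        · rw [hp1]; simpa [hc] using hy1
        · rw [hp2]; simpa [hc] using hy2
    | false =>
      cases j with
      | false =>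
        refine h.disj (hself false) ?_ hy1 hy2
        rw [h.len_inv]; exact hself false
      | true =>
        refine hcross false true y ?_ ?_
        · rw [hp2]; simpa [hc] using hy2
        · rw [hp1]; simpa [hc] using hy1
  · intro i
    rintro _ ⟨y, hy, rfl⟩
    have hy' : ¬ D y (c i)⁻¹ ≤ D y 1 := hy
    rw [not_le] at hy'
    change D (c i * y) (c i) ≤ D (c i * y) 1
    have q1 : D (c i * y) (c i) = D y 1 := by
      have := h.inv (c i) y 1
      rwa [mul_one] at this
    have q2 : D (c i * y) 1 = D y (c i)⁻¹ := by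
      have := h.inv (c i) y (c i)⁻¹
      rwa [mul_inv_cancel] at this
    rw [q1, q2]
    exact hy'.le
  · intro i
    rintro _ ⟨y, hy, rfl⟩
    have hy' : ¬ D y (c i) ≤ D y 1 := hy
    rw [not_le] at hy'
    change D ((c i)⁻¹ * y) (c i)⁻¹ ≤ D ((c i)⁻¹ * y) 1
    have q1 : D ((c i)⁻¹ * y) (c i)⁻¹ = D y 1 := by
      have := h.inv (c i)⁻¹ y 1
      rwa [mul_one] at this
    have q2 : D ((c i)⁻¹ * y) 1 = D y (c i) := by
      have := h.inv (c i)⁻¹ y (c i)
      rwa [inv_mul_cancel] at this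
    rw [q1, q2]
    exact hy'.le

end Pool.Agent.H33.TA
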