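import Pool.Agent.H33.TA.Ends

set_option autoImplicit false

/-! Without free subgroups the derived subgroup fixes an end, and the second derived subgroup has no
hyperbolic element. -/

namespace Pool.Agent.H33.TA

variable {G : Type} [Group G]

/-- a group acting such that the images of the pair `p, q` meet the pair -/
theorem comb {Ω : Type} [MulAction G Ω] {p q : Ω} (hpq : p ≠ q)
    (star : ∀ g : G, g • p = p ∨ g • p = q ∨ g • q = p ∨ g • q = q)
    {t : G} (tp : t • p = p) (tq : t • q = q)
    (tfix : ∀ x : Ω, t • x = x → x = p ∨ x = q) :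
    (∀ g ∈ commutator G, g • p = p) ∨ (∀ g ∈ commutator G, g • q = q) := by
  have inj : ∀ (g : G) {x y : Ω}, g • x = g • y → x = y := fun g x y e => smul_left_cancel g e
  by_cases hu : ∃ u : G, u • p = q
  · by_cases hsw : ∀ u : G, u • p = q → u • q = p
    · -- everything preserves the pair
      left
      have hinv : ∀ g : G, g • p = q → g⁻¹ • p = q := by
        intro g hg
        have := hsw g hg
        rw [← this, inv_smul_smul]
      obtain ⟨u, hup⟩ := hu
      have huq := hsw u hup
      have hall : ∀ g : G, (g • p = p ∧ g • q = q) ∨ (g • p = q ∧ g • q = p) := by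
        intro g
        rcases star g with h1 | h1 | h1 | h1
        · left
          refine ⟨h1, ?_⟩
          -- `(g u)` sends `q` to `p`
          have h2 : (g * u)⁻¹ • p = q := by
            rw [inv_smul_eq_iff, mul_smul, huq, h1]
          have h3 := hsw _ h2
          rw [inv_smul_eq_iff, mul_smul, hup] at h3
          exact h3.symm
        · right
          exact ⟨h1, hsw g h1⟩
        · right
          have h2 : g⁻¹ • p = q := by rw [inv_smul_eq_iff, h1]
          have h3 := hsw _ h2
          rw [inv_smul_eq_iff] at h3
          exact ⟨h3.symm, h1⟩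
        · left
          have h2 : (g * u) • p = q := by rw [mul_smul, hup, h1]
          have h3 := hsw _ h2
          rw [mul_smul, huq] at h3
          exact ⟨h3, h1⟩
      have hle : commutator G ≤ MulAction.stabilizer G p := by
        rw [commutator_def, Subgroup.commutator_le]
        intro a _ b _
        rw [MulAction.mem_stabilizer_iff, commutatorElement_def, mul_smul, mul_smul, mul_smul]
        have hai : ∀ g : G, (g⁻¹ • p = p ∧ g⁻¹ • q = q ∧ g • p = p ∧ g • q = q) ∨
            (g⁻¹ • p = q ∧ g⁻¹ • q = p ∧ g • p = q ∧ g • q = p) := by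
          intro g
          rcases hall g with ⟨h1, h2⟩ | ⟨h1, h2⟩
          · left
            exact ⟨by rw [inv_smul_eq_iff, h1], by rw [inv_smul_eq_iff, h2], h1, h2⟩
          · right
            exact ⟨by rw [inv_smul_eq_iff, h2], by rw [inv_smul_eq_iff, h1], h1, h2⟩
        rcases hai a with ⟨a1, a2, a3, a4⟩ | ⟨a1, a2, a3, a4⟩ <;>
          rcases hai b with ⟨b1, b2, b3, b4⟩ | ⟨b1, b2, b3, b4⟩
        · rw [b1, a1, b3, a3]
        · rw [b1, a2, b4, a3]
        · rw [b1, a1, b4, a4]
        · rw [b1, a2, b3, a4]
      intro g hg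
      exact hle hg
    · -- a triangle: impossible
      exfalso
      push Not at hsw
      obtain ⟨u, hup, huq⟩ := hsw
      have hne : u • q ≠ q := by
        intro e
        rw [← hup] at e
        exact hpq.symm (inj u (by rw [hup] at e ⊢; exact e) )
      have huu : u • u • q = p := by
        rcases star (u * u) with h1 | h1 | h1 | h1
        · rw [mul_smul, hup] at h1; exact absurd h1 huq
        · rw [mul_smul, hup] at h1; exact absurd h1 hne
        · rw [mul_smul] at h1; exact h1
        · rw [mul_smul, ← hup] at h1
          rw [hup] at h1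
          exfalso
          have h2 : u • u • q = u • p := by rw [h1, hup]
          exact huq (inj u h2)
      rcases star (u * t * u) with h1 | h1 | h1 | h1
      · rw [mul_smul, mul_smul, hup, tq] at h1; exact huq h1
      · rw [mul_smul, mul_smul, hup, tq] at h1; exact hne h1
      · rw [mul_smul, mul_smul] at h1
        have h2 : t • u • q = u • q := inj u (by rw [h1, huu])
        rcases tfix _ h2 with h3 | h3
        · exact huq h3
        · exact hne h3
      · rw [mul_smul, mul_smul] at h1
        have h2 : t • u • q = p := inj u (by rw [h1, hup])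
        have h3 : u • q = p := inj t (by rw [h2, tp])
        exact huq h3
  · -- no element maps `p` to `q`
    push Not at hu
    have hno : ∀ g : G, g • q ≠ p := by
      intro g e
      apply hu g⁻¹
      rw [inv_smul_eq_iff, e]
    have hall : ∀ g : G, g • p = p ∨ g • q = q := by
      intro g
      rcases star g with h1 | h1 | h1 | h1
      · exact Or.inl h1
      · exact absurd h1 (hu g)
      · exact absurd h1 (hno g)
      · exact Or.inr h1
    by_cases hP : ∀ g : G, g • p = p
    · exact Or.inl fun g _ => hP g
    · right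
      push Not at hP
      obtain ⟨a, ha⟩ := hP
      have haq : a • q = q := (hall a).resolve_left ha
      intro g _
      by_contra hgq
      have hgp : g • p = p := (hall g).resolve_right hgq
      rcases hall (a * g) with h1 | h1
      · rw [mul_smul, hgp] at h1; exact ha h1
      · rw [mul_smul] at h1
        apply hgq
        exact inj a (by rw [h1, haq])

variable {D : G → G → ℝ} (h : Hyp0 D)

include h

theorem Hyp0.star {t : G} (ht : D 1 t < D 1 (t * t))
    (hF : ∀ f : FreeGroup Bool →* G, ¬ Function.Injective f) (g : G) :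
    ∃ i j : Bool, EE D (pw t i) (fun n => g * pw t j n) := by
  by_contra hcon
  push Not at hcon
  have hb : ∀ i j : Bool, ∃ K : ℝ, ∃ N : ℕ, ∀ n, N ≤ n →
      gp D (pw t i n) (g * pw t j n) < K := by
    intro i j
    obtain ⟨K, N, hKN⟩ := h.not_ee (h.ee_pw ht i) (h.ee_mul g (h.ee_pw ht j)) (hcon i j)
    exact ⟨K, N, fun n hn => hKN n hn n hn⟩
  choose Kf Nf hKN using hb
  set K : ℝ := |Kf true true| + |Kf true false| + |Kf false true| + |Kf false false| with hKdef
  set N : ℕ := max (max (Nf true true) (Nf true false)) (max (Nf false true) (Nf false false))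
    with hNdef
  have hKi : ∀ i j : Bool, Kf i j ≤ K := by
    intro i j
    have a1 := abs_nonneg (Kf true true)
    have a2 := abs_nonneg (Kf true false)
    have a3 := abs_nonneg (Kf false true)
    have a4 := abs_nonneg (Kf false false)
    have a5 := le_abs_self (Kf i j)
    cases i <;> cases j <;> linarith
  have hNi : ∀ i j : Bool, Nf i j ≤ N := by
    intro i j
    cases i <;> cases j <;> simp [hNdef]
  have hp := h.tl_pos ht
  have hg0 := h.nonneg 1 g
  have hK0 : 0 ≤ K := by positivity
  obtain ⟨n0, hn0⟩ := exists_nat_gt ((2 * K + 8 * D 1 g) / tl D t)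
  rw [div_lt_iff₀ hp] at hn0
  set n := max (max n0 N) 1 with hndef
  have l0 : n0 ≤ n := (le_max_left _ _).trans (le_max_left _ _)
  have lN : N ≤ n := (le_max_right _ _).trans (le_max_left _ _)
  have l1 : 1 ≤ n := le_max_right _ _
  have m0 : (n0 : ℝ) * tl D t ≤ n * tl D t :=
    mul_le_mul_of_nonneg_right (by exact_mod_cast l0) hp.le
  have hbig : 2 * K + 8 * D 1 g < n * tl D t := by linarith
  have hκ := h.gp_nonneg t t⁻¹
  -- conjugation changes lengths by at most `2 |g|`
  have conj : ∀ x : G, D 1 x ≤ D 1 (g * x * g⁻¹) + 2 * D 1 g ∧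
      D 1 (g * x * g⁻¹) ≤ D 1 x + 2 * D 1 g := by
    intro x
    have e1 : D g (g * x) = D 1 x := by
      have := h.inv g 1 x
      rwa [mul_one] at this
    have e2 : D (g * x) (g * x * g⁻¹) = D 1 g := by
      have := h.inv (g * x) 1 g⁻¹
      rw [mul_one, h.len_inv] at this
      exact this
    have t1 := h.tri g (g * x) 1
    have t2 := h.tri 1 (g * x) (g * x * g⁻¹)
    have t3 := h.tri 1 (g * x * g⁻¹) (g * x)
    have t4 := h.tri 1 (g * x) g
    rw [h.symm g 1] at t1
    rw [h.symm (g * x * g⁻¹) (g * x)] at t2
    constructor <;> linarith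
  have la := h.pow_len' ht l1
  have la2 := h.pow_len' ht (show 1 ≤ n + n by omega)
  set a := t ^ n with hadef
  set b := g * a * g⁻¹ with hbdef
  have hbb : b * b = g * (a * a) * g⁻¹ := by rw [hbdef]; group
  have haa : a * a = t ^ (n + n) := by rw [hadef, pow_add]
  have ca := conj a
  have caa := conj (a * a)
  rw [← hbb, haa] at caa
  rw [← hbdef] at ca
  have sa := h.len_sq a
  rw [haa] at sa
  have sb := h.len_sq b
  push_cast at la2
  have hna : ((n : ℝ) + n) * tl D t = n * tl D t + n * tl D t := by ring
  rw [hna] at la2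
  obtain ⟨f, hf⟩ := h.pingpong (a := a) (b := b) (by linarith) (by linarith) (by
    intro i j
    have ei : pw a i 1 = pw t i n := by cases i <;> simp [pw, hadef]
    have ej : pw b j 1 = g * pw t j n * g⁻¹ := by
      cases j
      · simp [pw, hbdef, hadef, mul_assoc]
      · simp [pw, hbdef, hadef, mul_assoc]
    rw [ei, ej]
    have c1 := h.gp_right_mul (pw t i n) (g * pw t j n) g⁻¹
    rw [h.len_inv] at c1
    have c2 := hKN i j n ((hNi i j).trans lN)
    have c3 := hKi i j
    constructor <;> linarith)
  exact hF f hf

omit h in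
/-- ends, as a quotient of the sequences converging to an end -/
def endSetoid (h : Hyp0 D) : Setoid {u : ℕ → G // EE D u u} where
  r u v := EE D u.1 v.1
  iseqv := ⟨fun u => u.2, fun e => h.ee_symm e, fun e f => h.ee_trans e f⟩

omit h in
/-- the space of ends -/
def Ends (h : Hyp0 D) : Type := Quotient (endSetoid h)

omit h in
/-- the end of a sequence -/
def mkE (h : Hyp0 D) (u : {u : ℕ → G // EE D u u}) : Ends h := Quotient.mk'' u

omit h in
/-- action on the ends -/
def endSmul (h : Hyp0 D) (g : G) : Ends h → Ends h :=
  Quotient.map' (fun u => ⟨fun n => g * u.1 n, h.ee_mul g u.2⟩) (fun _ _ e => h.ee_mul g e)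

omit h in
instance endAction (h : Hyp0 D) : MulAction G (Ends h) where
  smul g x := endSmul h g x
  one_smul x := by
    induction x using Quotient.inductionOn'
    rename_i u
    refine Quotient.sound' ?_
    change EE D (fun n => 1 * u.1 n) u.1
    simpa using u.2
  mul_smul a b x := by
    induction x using Quotient.inductionOn'
    rename_i u
    refine Quotient.sound' ?_
    change EE D (fun n => (a * b) * u.1 n) (fun n => a * (b * u.1 n))
    simpa [mul_assoc] using h.ee_mul a (h.ee_mul b u.2)

/-- the derived subgroup fixes an end -/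
theorem Hyp0.fixes_end {t : G} (ht : D 1 t < D 1 (t * t))
    (hF : ∀ f : FreeGroup Bool →* G, ¬ Function.Injective f) :
    ∃ ξ : ℕ → G, EE D ξ ξ ∧ ∀ g ∈ commutator G, EE D (fun n => g * ξ n) ξ := by
  set p : Ends h := mkE h ⟨pw t true, h.ee_pw ht true⟩ with hp
  set q : Ends h := mkE h ⟨pw t false, h.ee_pw ht false⟩ with hq
  have key : ∀ (u v : {u : ℕ → G // EE D u u}), EE D u.1 v.1 →
      mkE h u = mkE h v := fun u v e => Quotient.sound' e
  have key2 : ∀ (u v : {u : ℕ → G // EE D u u}), mkE h u = mkE h v →
      EE D u.1 v.1 := fun u v e => Quotient.exact' e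
  have hsm : ∀ (g : G) (u : {u : ℕ → G // EE D u u}),
      g • mkE h u = mkE h ⟨fun n => g * u.1 n, h.ee_mul g u.2⟩ :=
    fun g u => rfl
  have hpq : p ≠ q := fun e => h.not_ee_pw ht (key2 _ _ e)
  have hstar : ∀ g : G, g • p = p ∨ g • p = q ∨ g • q = p ∨ g • q = q := by
    intro g
    obtain ⟨i, j, hij⟩ := h.star ht hF g
    have hji := h.ee_symm hij
    cases i <;> cases j
    · right; right; right
      rw [hq, hsm]; exact key _ _ hji
    · right; left
      rw [hp, hq, hsm]; exact key _ _ hji
    · right; right; left
      rw [hp, hq, hsm]; exact key _ _ hji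
    · left
      rw [hp, hsm]; exact key _ _ hji
  have htt : ∀ b : Bool, EE D (fun n => t * pw t b n) (pw t b) := by
    intro b
    have h1 := h.ee_pw ht b
    intro K
    obtain ⟨N, hN⟩ := h1 (K + D 1 t)
    refine ⟨N, fun n hn m hm => ?_⟩
    -- `t * t^(±n)` is at distance `|t|` from `t^(±n)`
    have h2 := hN n hn m hm
    have h3 := h.gp_right_mul (pw t b m) (t * pw t b n) t⁻¹
    have h4 : t * pw t b n * t⁻¹ = pw t b n := by
      cases b with
      | true =>
        have : pw t true n = t ^ n := by simp [pw]
        rw [this, ← pow_succ', pow_succ, mul_inv_cancel_right]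
      | false =>
        have : pw t false n = (t ^ n)⁻¹ := by simp [pw]
        rw [this]
        have h5 : t * (t ^ n)⁻¹ = (t ^ n)⁻¹ * t := by
          rw [mul_inv_eq_iff_eq_mul, mul_assoc, ← pow_succ', pow_succ, ← mul_assoc,
            inv_mul_cancel, one_mul]
        rw [h5, mul_inv_cancel_right]
    rw [h4, h.len_inv, h.gp_symm, h.gp_symm (pw t b m)] at h3
    change K ≤ gp D (t * pw t b n) (pw t b m)
    linarith
  have tp : t • p = p := by rw [hp, hsm]; exact key _ _ (htt true)
  have tq : t • q = q := by rw [hq, hsm]; exact key _ _ (htt false)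
  have tfix : ∀ x : Ends h, t • x = x → x = p ∨ x = q := by
    intro x
    induction x using Quotient.inductionOn'
    rename_i u
    intro hx
    have hx' : t • mkE h u = mkE h u := hx
    rw [hsm] at hx'
    rcases h.ee_fix ht u.2 (key2 _ _ hx') with h1 | h1
    · right; exact key _ _ h1
    · left; exact key _ _ h1
  rcases comb hpq hstar tp tq tfix with h1 | h1
  · refine ⟨pw t true, h.ee_pw ht true, fun g hg => ?_⟩
    have := h1 g hg
    rw [hp, hsm] at this
    exact key2 _ _ this
  · refine ⟨pw t false, h.ee_pw ht false, fun g hg => ?_⟩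
    have := h1 g hg
    rw [hq, hsm] at this
    exact key2 _ _ this

end Pool.Agent.H33.TA
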