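import Pool.Agent.H11.TB.Reduction

set_option autoImplicit false

/-! Simple sections of groups all of whose subgroups are T-groups. -/

namespace Pool.Agent.H33.TA

open Pool.Agent.H11.TB
open scoped commutatorElement

variable {G : Type} [Group G]

/-- the second derived subgroup of a finitely generated group is finitely generated as a normal subgroup -/
theorem second_fng (hT : TB2 G) (hfg : Group.FG G) :
    ∃ S : Finset G, Subgroup.normalClosure (S : Set G) = derivedSeries G 2 := by
  classical
  have hn1 : (derivedSeries G 1).Normal := derivedSeries_normal G 1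
  have hn2 : (derivedSeries G 2).Normal := derivedSeries_normal G 2
  have hs := QuotientGroup.mk'_surjective (derivedSeries G 2)
  have h1 : derivedSeries (G ⧸ derivedSeries G 2) 2 = ⊥ := by
    rw [← map_derivedSeries_eq hs, Subgroup.map_eq_bot_iff, QuotientGroup.ker_mk']
  by_cases hcon : ∃ g : G, ∀ n : ℕ, 0 < n → g ^ n ∉ derivedSeries G 2
  · obtain ⟨g, hg⟩ := hcon
    have hginf : ¬ IsOfFinOrder (QuotientGroup.mk' (derivedSeries G 2) g) := by
      intro h
      rw [isOfFinOrder_iff_pow_eq_one] at h
      obtain ⟨n, hn, h⟩ := h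
      rw [← map_pow] at h
      exact hg n hn ((QuotientGroup.eq_one_iff _).1 h)
    have hcomm := comm_of_metab (hT.quotient (derivedSeries G 2)) h1 hginf
    obtain ⟨T, hTg⟩ := Group.fg_def.1 hfg
    refine ⟨(T ×ˢ T).image (fun p => ⁅p.1, p.2⁆), ?_⟩
    apply le_antisymm
    · apply Subgroup.normalClosure_le_normal
      intro y hy
      rw [Finset.mem_coe, Finset.mem_image] at hy
      obtain ⟨⟨a, b⟩, _, rfl⟩ := hy
      have h3 := hcomm (QuotientGroup.mk' (derivedSeries G 2) a)
        (QuotientGroup.mk' (derivedSeries G 2) b)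
      apply (QuotientGroup.eq_one_iff _).1
      change QuotientGroup.mk' (derivedSeries G 2) ⁅a, b⁆ = 1
      rw [map_commutatorElement, commutatorElement_def, h3]; group
    · set N := Subgroup.normalClosure (((T ×ˢ T).image (fun p => ⁅p.1, p.2⁆) : Finset G) : Set G)
        with hN
      have hgen : ∀ a : G, QuotientGroup.mk' N a ∈
          Subgroup.closure ((QuotientGroup.mk' N) '' (T : Set G)) := by
        intro a
        rw [← MonoidHom.map_closure, hTg]
        exact ⟨a, Subgroup.mem_top a, rfl⟩
      have hc := closure_comm (S := (QuotientGroup.mk' N) '' (T : Set G)) (by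
        rintro _ ⟨a, ha, rfl⟩ _ ⟨b, hb, rfl⟩
        rw [← map_mul, ← map_mul]
        apply QuotientGroup.eq.2
        have h4 : ⁅b, a⁆ ∈ N := by
          apply Subgroup.subset_normalClosure
          rw [Finset.mem_coe, Finset.mem_image]
          exact ⟨(b, a), Finset.mem_product.2 ⟨hb, ha⟩, rfl⟩
        have h5 : (b * a)⁻¹ * ⁅b, a⁆ * ((b * a)⁻¹)⁻¹ ∈ N :=
          Subgroup.Normal.conj_mem inferInstance _ h4 _
        have e : (a * b)⁻¹ * (b * a) = (b * a)⁻¹ * ⁅b, a⁆ * ((b * a)⁻¹)⁻¹ := by
          rw [commutatorElement_def]; group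
        rw [e]; exact h5)
      refine (derivedSeries_antitone G (by norm_num : 1 ≤ 2)).trans ?_
      change ⁅(⊤ : Subgroup G), ⊤⁆ ≤ _
      rw [Subgroup.commutator_le]
      intro a _ b _
      apply (QuotientGroup.eq_one_iff _).1
      change QuotientGroup.mk' N ⁅a, b⁆ = 1
      rw [map_commutatorElement, commutatorElement_def, hc _ (hgen a) _ (hgen b)]; group
  · push Not at hcon
    have hfin1 : Finite (G ⧸ derivedSeries G 1) :=
      finiteIndex_of_periodic_quotient hfg (derivedSeries G 1) (by rw [derivedSeries_one]) (by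
        intro g
        obtain ⟨n, hn, h⟩ := hcon g
        exact ⟨n, hn, derivedSeries_antitone G (by norm_num) h⟩)
    have hfi1 : (derivedSeries G 1).FiniteIndex := Subgroup.finiteIndex_of_finite_quotient
    have hfg1 : Group.FG (derivedSeries G 1) := inferInstance
    have hnn : ((derivedSeries G 2).subgroupOf (derivedSeries G 1)).Normal :=
      (derivedSeries_normal G 2).subgroupOf _
    have hc : commutator (derivedSeries G 1) ≤
        (derivedSeries G 2).subgroupOf (derivedSeries G 1) := by
      have h1 : (commutator (derivedSeries G 1)).map (derivedSeries G 1).subtype =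
          derivedSeries G 2 := Subgroup.map_subtype_commutator _
      intro x hx
      rw [Subgroup.mem_subgroupOf, ← h1]
      exact ⟨x, hx, rfl⟩
    have hfin2 := finiteIndex_of_periodic_quotient hfg1
      ((derivedSeries G 2).subgroupOf (derivedSeries G 1)) hc (by
        intro g
        obtain ⟨n, hn, h⟩ := hcon g.1
        exact ⟨n, hn, by rw [Subgroup.mem_subgroupOf]; exact h⟩)
    have hfi2 : ((derivedSeries G 2).subgroupOf (derivedSeries G 1)).FiniteIndex :=
      Subgroup.finiteIndex_of_finite_quotient
    have hfg2 : Group.FG ((derivedSeries G 2).subgroupOf (derivedSeries G 1)) := inferInstance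
    have hfg2' : (derivedSeries G 2).FG := by
      obtain ⟨S, hS⟩ := (Group.fg_iff_subgroup_fg _).1 hfg2
      refine ⟨S.image (derivedSeries G 1).subtype, ?_⟩
      rw [Finset.coe_image, ← MonoidHom.map_closure, hS, Subgroup.subgroupOf_map_subtype]
      exact inf_eq_left.2 (derivedSeries_antitone G (by norm_num))
    obtain ⟨S, hS⟩ := hfg2'
    refine ⟨S, ?_⟩
    apply le_antisymm
    · apply Subgroup.normalClosure_le_normal
      rw [← hS]
      exact Subgroup.subset_closure
    · rw [← hS]
      exact Subgroup.closure_le_normalClosure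

/-- maximal normal subgroups -/
theorem simple_section (hT : TB2 G) (S : Finset G) (P : Subgroup G) (hP : P.Normal)
    (hS : Subgroup.normalClosure (S : Set G) = P) (hne : P ≠ ⊥) :
    ∃ (N : Subgroup P) (_ : N.Normal), IsSimpleGroup (P ⧸ N) := by
  have hSP : ∀ s ∈ S, s ∈ P := fun s hs => by
    rw [← hS]; exact Subgroup.subset_normalClosure hs
  -- a normal subgroup of `P` containing `S` is everything
  have key : ∀ M : Subgroup P, M.Normal → (∀ s (hs : s ∈ S), (⟨s, hSP s hs⟩ : P) ∈ M) → M = ⊤ := by
    intro M hM hMS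
    have hn : (M.map P.subtype).Normal := by
      constructor
      intro n hn g
      refine hT (M.map P.subtype) P ⊤ ?_ le_top ?_ ?_ g (Subgroup.mem_top g) n hn
      · rintro _ ⟨x, _, rfl⟩
        exact x.2
      · rintro b hb _ ⟨x, hx, rfl⟩
        exact ⟨⟨b, hb⟩ * x * ⟨b, hb⟩⁻¹, hM.conj_mem x hx _, rfl⟩
      · intro c _ b hb
        exact hP.conj_mem b hb c
    have hle : P ≤ M.map P.subtype := by
      refine (le_of_eq hS.symm).trans ?_
      apply Subgroup.normalClosure_le_normal
      intro s hs
      exact ⟨⟨s, hSP s hs⟩, hMS s hs, rfl⟩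
    rw [eq_top_iff]
    intro x _
    obtain ⟨y, hy, hyx⟩ := hle x.2
    have : y = x := Subtype.ext hyx
    rw [← this]; exact hy
  obtain ⟨N, -, hN⟩ := zorn_le_nonempty₀ {M : Subgroup P | M.Normal ∧ M ≠ ⊤} (by
    intro c hc hch M0 hM0
    have hdir : DirectedOn (· ≤ ·) c := hch.directedOn
    refine ⟨sSup c, ⟨?_, ?_⟩, fun z hz => le_sSup hz⟩
    · constructor
      intro n hn g
      rw [Subgroup.mem_sSup_of_directedOn ⟨M0, hM0⟩ hdir] at hn ⊢
      obtain ⟨M, hM, hnM⟩ := hn
      exact ⟨M, hM, (hc hM).1.conj_mem n hnM g⟩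
    · intro htop
      -- all elements of `S` lie in one member
      have h1 : ∀ T : Finset G, T ⊆ S → ∃ M ∈ c, ∀ s (_ : s ∈ T) (hs : s ∈ S), (⟨s, hSP s hs⟩ : P) ∈ M := by
        classical
        intro T
        induction T using Finset.induction_on with
        | empty => intro _; exact ⟨M0, hM0, by simp⟩
        | insert a T _ ih =>
          intro hT'
          obtain ⟨M, hM, hMT⟩ := ih (fun x hx => hT' (Finset.mem_insert_of_mem hx))
          have haS : a ∈ S := hT' (Finset.mem_insert_self a T)
          have h2 : (⟨a, hSP a haS⟩ : P) ∈ sSup c := by rw [htop]; exact Subgroup.mem_top _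
          rw [Subgroup.mem_sSup_of_directedOn ⟨M0, hM0⟩ hdir] at h2
          obtain ⟨M', hM', haM'⟩ := h2
          obtain ⟨M'', hM'', h3, h4⟩ := hdir M hM M' hM'
          refine ⟨M'', hM'', ?_⟩
          intro s hs hsS
          rcases Finset.mem_insert.1 hs with rfl | hs
          · exact h4 haM'
          · exact h3 (hMT s hs hsS)
      obtain ⟨M, hM, hMS⟩ := h1 S (Finset.Subset.refl S)
      exact (hc hM).2 (key M (hc hM).1 (fun s hs => hMS s hs hs))) ⊥ (by
        refine ⟨inferInstance, ?_⟩
        intro h
        apply hne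
        rw [eq_bot_iff]
        intro x hx
        have h2 : (⟨x, hx⟩ : P) ∈ (⊥ : Subgroup P) := by rw [h]; exact Subgroup.mem_top _
        rw [Subgroup.mem_bot] at h2
        rw [Subgroup.mem_bot]
        exact congrArg Subtype.val h2)
  obtain ⟨⟨hNn, hNt⟩, hmax⟩ := hN
  refine ⟨N, hNn, ?_⟩
  have hnt : Nontrivial (P ⧸ N) := by
    by_contra h
    rw [not_nontrivial_iff_subsingleton] at h
    apply hNt
    rw [eq_top_iff]
    intro x _
    exact (QuotientGroup.eq_one_iff x).1 (Subsingleton.elim _ _)
  refine { hnt with eq_bot_or_eq_top_of_normal := ?_ }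
  intro K hK
  by_cases htop : K.comap (QuotientGroup.mk' N) = ⊤
  · right
    rw [eq_top_iff]
    intro y _
    obtain ⟨x, rfl⟩ := QuotientGroup.mk'_surjective N y
    have : x ∈ K.comap (QuotientGroup.mk' N) := by rw [htop]; exact Subgroup.mem_top x
    exact this
  · left
    have hle : N ≤ K.comap (QuotientGroup.mk' N) := by
      intro x hx
      have h1 : QuotientGroup.mk' N x = 1 := (QuotientGroup.eq_one_iff x).2 hx
      rw [Subgroup.mem_comap, h1]
      exact K.one_mem
    have h2 := hmax (y := K.comap (QuotientGroup.mk' N)) ⟨hK.comap _, htop⟩ hle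
    rw [eq_bot_iff]
    intro y hy
    obtain ⟨x, rfl⟩ := QuotientGroup.mk'_surjective N y
    rw [Subgroup.mem_bot]
    exact (QuotientGroup.eq_one_iff x).2 (h2 hy)

/-- if all finitely generated subgroups of the second derived subgroup are metabelian, so is the group -/
theorem metG_of_local (hT : TB2 G)
    (h2 : ∀ H : Subgroup G, H.FG → H ≤ derivedSeries G 2 → derivedSeries H 2 = ⊥) : MetG G := by
  have h1 : Met (derivedSeries G 2) := by
    intro x hx y hy z hz w hw
    set L := Subgroup.closure ({x, y, z, w} : Set G) with hL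
    have hx' : x ∈ L := Subgroup.subset_closure (by simp)
    have hy' : y ∈ L := Subgroup.subset_closure (by simp)
    have hz' : z ∈ L := Subgroup.subset_closure (by simp)
    have hw' : w ∈ L := Subgroup.subset_closure (by simp)
    have hfg : L.FG := by
      rw [Subgroup.fg_iff]
      exact ⟨_, rfl, by simp⟩
    have hle : L ≤ derivedSeries G 2 := by
      rw [hL, Subgroup.closure_le]
      rintro a (rfl | rfl | rfl | rfl)
      · exact hx
      · exact hy
      · exact hz
      · exact hw
    have h3 := derived_two_eq_bot_iff.1 (h2 L hfg hle) ⟨x, hx'⟩ ⟨y, hy'⟩ ⟨z, hz'⟩ ⟨w, hw'⟩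
    have h4 := congrArg L.subtype h3
    simpa only [map_mul, map_commutatorElement, Subgroup.subtype_apply] using h4
  rw [met_iff] at h1
  have h3 : ⁅derivedSeries G 2, derivedSeries G 2⁆ = derivedSeries G 2 := three_eq_two hT
  rw [h3] at h1
  rw [← derived_two_eq_bot_iff, ← h3, eq_bot_iff, Subgroup.commutator_le]
  intro a ha b hb
  rw [Subgroup.mem_bot, commutatorElement_def, h1 a ha b hb]
  group

end Pool.Agent.H33.TA
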