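import Pool.Agent.H33.TA.Second
import Pool.Agent.H33.TA.Sect

set_option autoImplicit false

/-! Groups all of whose subgroups are T-groups, acting on `0`-hyperbolic spaces. -/

namespace Pool.Agent.H33.TA

open Pool.Agent.H11.TB
open scoped commutatorElement

/-- a faithful action with finite orbits gives finite quotients -/
theorem resid_fin {K X : Type} [Group K] [MulAction K X] (hf : ∀ g : K, (∀ x : X, g • x = x) → g = 1)
    (hfin : ∀ x : X, (MulAction.orbit K x).Finite) (g : K) (hg : g ≠ 1) :
    ∃ (N : Subgroup K) (_ : N.Normal), g ∉ N ∧ Finite (K ⧸ N) := by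
  have h1 : ∃ x : X, g • x ≠ x := by
    by_contra hcon
    push Not at hcon
    exact hg (hf g hcon)
  obtain ⟨x, hx⟩ := h1
  have hF : Finite (MulAction.orbit K x) := (hfin x).to_subtype
  refine ⟨(MulAction.toPermHom K (MulAction.orbit K x)).ker, inferInstance, ?_, ?_⟩
  · intro hmem
    rw [MonoidHom.mem_ker] at hmem
    apply hx
    have h2 : (MulAction.toPermHom K (MulAction.orbit K x)) g ⟨x, MulAction.mem_orbit_self x⟩ =
        ⟨x, MulAction.mem_orbit_self x⟩ := by
      rw [hmem]; rfl
    exact congrArg Subtype.val h2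
  · have h3 : Finite (MulAction.toPermHom K (MulAction.orbit K x)).range := inferInstance
    exact Finite.of_equiv _ (QuotientGroup.quotientKerEquivRange
      (MulAction.toPermHom K (MulAction.orbit K x))).toEquiv.symm

variable {G : Type} [Group G]

/-- finitely generated subgroups of the second derived subgroup have bounded orbits -/
theorem bounded_second (hT : TB2 G) {X : Type} [MetricSpace X] [MulAction G X]
    [IsIsometricSMul G X] (o : X)
    (h0 : ∀ x y z w : X, dist x y + dist z w ≤ max (dist x z + dist y w) (dist x w + dist y z))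
    (H : Subgroup G) (hH : H.FG) (hle : H ≤ derivedSeries G 2) :
    ∃ r : ℝ, ∀ g ∈ H, dist o (g • o) ≤ r := by
  have hD : Hyp0 (fun g k : G => dist (g • o) (k • o)) :=
    { self := fun x => dist_self _
      symm := fun x y => dist_comm _ _
      inv := fun g x y => by
        simp only [mul_smul, dist_smul]
      four := fun x y z w => h0 _ _ _ _ }
  have h2 := hD.second_derived (fun f hf => not_tb2_freeGroup (hT.of_injective f hf))
  obtain ⟨M, hM⟩ := hD.bounded_of_fg H hH (fun g hg => h2 g (hle hg))
  refine ⟨M, ?_⟩
  intro g hg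
  have h3 := hM g hg
  simp only [one_smul] at h3
  exact h3

/-- faithful actions on spaces with finite balls -/
theorem second_of_finite_balls (hT : TB2 G) {X : Type} [MetricSpace X] [MulAction G X]
    [IsIsometricSMul G X] (hf : ∀ g : G, (∀ x : X, g • x = x) → g = 1)
    (hb : ∀ (x : X) (r : ℝ), (Metric.closedBall x r).Finite) (H : Subgroup G)
    (h : ∃ (x : X) (r : ℝ), ∀ g ∈ H, dist x (g • x) ≤ r) : derivedSeries H 2 = ⊥ := by
  obtain ⟨x, r, hr⟩ := h
  apply second_derived_of_residually (hT.subgroup H)
  intro g hg
  obtain ⟨N, hN, h1, h2⟩ := resid_fin (K := H) (X := X) (by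
    intro g hg
    exact Subtype.ext (hf g.1 hg)) (by
    intro y
    refine (hb y (dist y x + r + dist x y)).subset ?_
    rintro _ ⟨l, rfl⟩
    rw [Metric.mem_closedBall]
    have h1 := hr l.1 l.2
    have h2 : dist ((l : G) • x) ((l : G) • y) = dist x y := dist_smul _ _ _
    have h3 : dist ((l : G) • y) y ≤ dist ((l : G) • y) ((l : G) • x) + dist ((l : G) • x) x + dist x y := by
      have h4 := dist_triangle ((l : G) • y) ((l : G) • x) y
      have h5 := dist_triangle ((l : G) • x) x y
      linarith
    rw [dist_comm ((l : G) • y) ((l : G) • x), h2, dist_comm ((l : G) • x) x] at h3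
    change dist ((l : G) • y) y ≤ _
    rw [dist_comm y x]
    linarith) g hg
  exact ⟨N, hN, h1, Or.inl h2⟩

end Pool.Agent.H33.TA
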