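import Pool.Agent.H33.TA.Fix

set_option autoImplicit false

/-! The second derived subgroup has no hyperbolic element (Busemann homomorphism). -/

namespace Pool.Agent.H33.TA

open scoped commutatorElement

variable {G : Type} [Group G] {D : G → G → ℝ} (h : Hyp0 D)

/-- the Busemann function of the end of `ξ` has the value `r` at `y` -/
def Bv (D : G → G → ℝ) (ξ : ℕ → G) (y : G) (r : ℝ) : Prop :=
  ∃ N : ℕ, ∀ n, N ≤ n → D y (ξ n) - D 1 (ξ n) = r

include h

/-- the Gromov product of a point with sequences converging to the same end is finally constant -/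
theorem Hyp0.ev_eq {u v : ℕ → G} (e : EE D u v) (y : G) :
    ∃ N : ℕ, ∀ n, N ≤ n → ∀ m, N ≤ m → gp D y (u n) = gp D y (v m) := by
  obtain ⟨N, hN⟩ := e (D 1 y + 1)
  refine ⟨N, fun n hn m hm => ?_⟩
  have h1 := hN n hn m hm
  have h2 := h.gp_le y (v m)
  have h3 : gp D (u n) y = gp D (v m) y := h.gp_iso (by rw [h.gp_symm (v m) y]; linarith)
  rw [h.gp_symm y, h3, h.gp_symm]

theorem Hyp0.bv_exists {ξ : ℕ → G} (e : EE D ξ ξ) (y : G) : ∃ r, Bv D ξ y r := by
  obtain ⟨N, hN⟩ := h.ev_eq e y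
  refine ⟨D 1 y - 2 * gp D y (ξ N), N, fun n hn => ?_⟩
  have h1 := hN N le_rfl n hn
  rw [h1]
  unfold gp
  ring

omit h in
theorem bv_unique {ξ : ℕ → G} {y : G} {r s : ℝ} (h1 : Bv D ξ y r) (h2 : Bv D ξ y s) : r = s := by
  obtain ⟨N, hN⟩ := h1
  obtain ⟨M, hM⟩ := h2
  rw [← hN (max N M) (le_max_left _ _), ← hM (max N M) (le_max_right _ _)]

omit h in
theorem bv_one (ξ : ℕ → G) : Bv D ξ 1 0 := ⟨0, fun n _ => by ring⟩

theorem Hyp0.bv_mul {ξ : ℕ → G} {g : G} (e : EE D (fun n => g * ξ n) ξ) {y : G} {r s : ℝ}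
    (hy : Bv D ξ y r) (hg : Bv D ξ g s) : Bv D ξ (g * y) (s + r) := by
  -- `g⁻¹ ξ` converges to the same end
  have e' : EE D (fun n => g⁻¹ * ξ n) ξ := by
    have h1 := h.ee_mul g⁻¹ (h.ee_symm e)
    intro K
    obtain ⟨N, hN⟩ := h1 K
    refine ⟨N, fun n hn m hm => ?_⟩
    have h2 : K ≤ gp D (g⁻¹ * ξ n) (g⁻¹ * (g * ξ m)) := hN n hn m hm
    rwa [inv_mul_cancel_left] at h2
  obtain ⟨N1, hN1⟩ := h.ev_eq e' y
  obtain ⟨N2, hN2⟩ := hy
  obtain ⟨N3, hN3⟩ := hg
  refine ⟨max N1 (max N2 N3), fun n hn => ?_⟩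
  have l1 : N1 ≤ n := (le_max_left _ _).trans hn
  have l2 : N2 ≤ n := ((le_max_left _ _).trans (le_max_right _ _)).trans hn
  have l3 : N3 ≤ n := ((le_max_right _ _).trans (le_max_right _ _)).trans hn
  have h1 : gp D y (g⁻¹ * ξ n) = gp D y (ξ n) := hN1 n l1 n l1
  have h2 := hN2 n l2
  have h3 := hN3 n l3
  have h4 : D (g * y) (ξ n) = D y (g⁻¹ * ξ n) := by
    have := h.inv g y (g⁻¹ * ξ n)
    rwa [mul_inv_cancel_left] at this
  have h5 : D g (ξ n) = D 1 (g⁻¹ * ξ n) := by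
    have := h.inv g 1 (g⁻¹ * ξ n)
    rwa [mul_inv_cancel_left, mul_one] at this
  unfold gp at h1
  rw [← h4, ← h5] at h1
  linarith

/-- the elements of the derived subgroup on which the Busemann homomorphism vanishes -/
def Hyp0.kerB {ξ : ℕ → G} (e : EE D ξ ξ) (hf : ∀ g ∈ commutator G, EE D (fun n => g * ξ n) ξ) :
    Subgroup G where
  carrier := {g | g ∈ commutator G ∧ Bv D ξ g 0}
  one_mem' := ⟨Subgroup.one_mem _, bv_one ξ⟩
  mul_mem' := by
    rintro a b ⟨ha, ha0⟩ ⟨hb, hb0⟩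
    refine ⟨Subgroup.mul_mem _ ha hb, ?_⟩
    have := h.bv_mul (hf a ha) hb0 ha0
    rwa [add_zero] at this
  inv_mem' := by
    rintro a ⟨ha, ha0⟩
    refine ⟨Subgroup.inv_mem _ ha, ?_⟩
    obtain ⟨r, hr⟩ := h.bv_exists e a⁻¹
    have h1 := h.bv_mul (hf a ha) hr ha0
    rw [mul_inv_cancel, zero_add] at h1
    have h2 := bv_unique h1 (bv_one ξ)
    rwa [h2] at hr

/-- no element of the second derived subgroup is hyperbolic -/
theorem Hyp0.second_derived (hF : ∀ f : FreeGroup Bool →* G, ¬ Function.Injective f) :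
    ∀ g ∈ derivedSeries G 2, D 1 (g * g) ≤ D 1 g := by
  by_cases hex : ∃ t : G, D 1 t < D 1 (t * t)
  · obtain ⟨t, ht⟩ := hex
    obtain ⟨ξ, e, hf⟩ := h.fixes_end ht hF
    have hle : derivedSeries G 2 ≤ h.kerB e hf := by
      rw [derivedSeries_succ, derivedSeries_one, Subgroup.commutator_le]
      intro a ha b hb
      refine ⟨?_, ?_⟩
      · exact Subgroup.commutator_le_left (commutator G) (commutator G)
          (Subgroup.commutator_mem_commutator ha hb)
      · obtain ⟨r, hr⟩ := h.bv_exists e a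
        obtain ⟨s, hs⟩ := h.bv_exists e b
        obtain ⟨r', hr'⟩ := h.bv_exists e a⁻¹
        obtain ⟨s', hs'⟩ := h.bv_exists e b⁻¹
        have ha' := Subgroup.inv_mem _ ha
        have h1 := h.bv_mul (hf a ha) hr' hr
        rw [mul_inv_cancel] at h1
        have h2 := bv_unique h1 (bv_one ξ)
        have h3 := h.bv_mul (hf b hb) hs' hs
        rw [mul_inv_cancel] at h3
        have h4 := bv_unique h3 (bv_one ξ)
        have h5 := h.bv_mul (hf _ ha') hs' hr'
        have h6 := h.bv_mul (hf b hb) h5 hs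
        have h7 := h.bv_mul (hf a ha) h6 hr
        have h8 : r + (s + (r' + s')) = 0 := by linarith
        rw [h8] at h7
        have h9 : ⁅a, b⁆ = a * (b * (a⁻¹ * b⁻¹)) := by rw [commutatorElement_def]; group
        rw [h9]
        exact h7
    intro g hg
    obtain ⟨_, N1, hN1⟩ := hle hg
    obtain ⟨_, N2, hN2⟩ := (h.kerB e hf).inv_mem (hle hg)
    set n := max N1 N2
    have h1 := hN1 n (le_max_left _ _)
    have h2 := hN2 n (le_max_right _ _)
    have h3 := h.gp_min g (ξ n) g⁻¹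
    have h4 := h.len_sq g
    have h5 : gp D g (ξ n) = D 1 g / 2 := by
      unfold gp
      linarith
    have h6 : gp D (ξ n) g⁻¹ = D 1 g / 2 := by
      rw [h.gp_symm]
      unfold gp
      rw [h.len_inv]
      linarith
    rw [h5, h6, min_self] at h3
    linarith
  · push Not at hex
    exact fun g _ => hex g

end Pool.Agent.H33.TA
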